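import Pool.Agent.H62.N64F.Fibre

set_option autoImplicit false

/-! MODULE F/Fin5 (about 80 lines). Block F (s = 5), MP_4f0605_nt: the final bound for s = 5.

PROOF. Let `W` be the largest natural number with `W^6 ≤ B` (`Nat.findGreatest`, or `W = ⌊B^(1/6)⌋₊`): `W^5 ≤ B^(5/6)`, `W + 1 ≥ B^(1/6)`. For `B ≥ 1`,
`(B+1) ≤ 2 B`: `card (qF B W) ≤ 3 * 16 B^(4+5/6) + 16 * 8 B^(5-1/6) ≤ 200 B^(5-1/6)`. With `ε = 1/42` in `card_goodF_le` and in `card_qE_le`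
(`B^(1+3+1/42) ≤ B^(5-1/7)`), `card_adF_le`: `card (adF 5 B) ≤ 14400 (200 C + 240 C') B^(5-1/7)`, since `1/42 - 1/6 = -1/7`. -/

namespace Pool.Agent.H62.N64F

open Pool.Agent.H19.N64

theorem ad5_bound :
    ∃ C : ℝ, ∀ B : ℕ, 1 ≤ B → ((adF 5 B).card : ℝ) ≤ C * (B : ℝ) ^ (5 - 1 / 7 : ℝ) := by
  obtain ⟨C1, hC1, h1⟩ := card_goodF_le (1 / 42) (by norm_num)
  obtain ⟨C2, hC2, h2⟩ := card_qE_le (1 / 42) (by norm_num)
  refine ⟨14400 * (176 * C1 + 240 * C2), fun B hB => ?_⟩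
  set b : ℝ := (B : ℝ) with hb
  have hb1 : 1 ≤ b := by rw [hb]; exact_mod_cast hB
  have hb0 : 0 < b := by linarith
  set v : ℝ := b ^ (1 / 6 : ℝ) with hv
  have hv1 : 1 ≤ v := Real.one_le_rpow hb1 (by norm_num)
  have hv0 : 0 < v := by linarith
  set W : ℕ := ⌊v⌋₊ with hW
  have hWv : (W : ℝ) ≤ v := Nat.floor_le hv0.le
  have hvW : v ≤ (W : ℝ) + 1 := (Nat.lt_floor_add_one v).le
  have hv6 : v ^ 6 = b := by
    rw [hv, ← Real.rpow_natCast, ← Real.rpow_mul hb0.le]; norm_num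
  have hW5 : (W : ℝ) ^ 5 ≤ v ^ 5 := pow_le_pow_left₀ (Nat.cast_nonneg _) hWv 5
  have hv5 : 1 ≤ v ^ 5 := one_le_pow₀ hv1
  -- the 5-tuples
  have hqF : ((qF B W).card : ℝ) ≤ 176 * (v ^ 5 * b ^ 4) := by
    refine (card_qF_le B W).trans ?_
    rw [← hb]
    have e1 : (2 * (W : ℝ) ^ 5 + 1) * (b + 1) ^ 4 ≤ (3 * v ^ 5) * (16 * b ^ 4) := by
      have e2 : (b + 1) ^ 4 ≤ 16 * b ^ 4 := by
        have : (b + 1) ^ 4 ≤ (2 * b) ^ 4 := pow_le_pow_left₀ (by linarith) (by linarith) 4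
        calc (b + 1) ^ 4 ≤ (2 * b) ^ 4 := this
          _ = 16 * b ^ 4 := by ring
      have e3 : 2 * (W : ℝ) ^ 5 + 1 ≤ 3 * v ^ 5 := by linarith
      exact mul_le_mul e3 e2 (by positivity) (by positivity)
    have e4 : 16 * b ^ 2 / ((W : ℝ) + 1) * (b + 1) ^ 3 ≤ 128 * (v ^ 5 * b ^ 4) := by
      have e5 : 16 * b ^ 2 / ((W : ℝ) + 1) ≤ 16 * b ^ 2 / v :=
        div_le_div_of_nonneg_left (by positivity) hv0 hvW
      have e6 : (b + 1) ^ 3 ≤ 8 * b ^ 3 := by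
        have : (b + 1) ^ 3 ≤ (2 * b) ^ 3 := pow_le_pow_left₀ (by linarith) (by linarith) 3
        calc (b + 1) ^ 3 ≤ (2 * b) ^ 3 := this
          _ = 8 * b ^ 3 := by ring
      calc 16 * b ^ 2 / ((W : ℝ) + 1) * (b + 1) ^ 3 ≤ 16 * b ^ 2 / v * (8 * b ^ 3) :=
            mul_le_mul e5 e6 (by positivity) (by positivity)
        _ = 128 * (v ^ 5 * b ^ 4) := by
            rw [div_mul_eq_mul_div, div_eq_iff hv0.ne']
            linear_combination (-128 * b ^ 4) * hv6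
    calc _ ≤ (3 * v ^ 5) * (16 * b ^ 4) + 128 * (v ^ 5 * b ^ 4) := add_le_add e1 e4
      _ = 176 * (v ^ 5 * b ^ 4) := by ring
  have hgood := h1 B W hB
  rw [← hb] at hgood
  have hqE := h2 B hB
  rw [← hb] at hqE
  have hpow1 : b ^ (1 / 42 : ℝ) * (v ^ 5 * b ^ 4) = b ^ (5 - 1 / 7 : ℝ) := by
    rw [hv, ← Real.rpow_natCast (b ^ (1 / 6 : ℝ)) 5, ← Real.rpow_mul hb0.le,
      ← Real.rpow_natCast b 4, ← Real.rpow_add hb0, ← Real.rpow_add hb0]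
    norm_num
  have hpow2 : b * b ^ (3 + 1 / 42 : ℝ) ≤ b ^ (5 - 1 / 7 : ℝ) := by
    calc b * b ^ (3 + 1 / 42 : ℝ) = b ^ (1 : ℝ) * b ^ (3 + 1 / 42 : ℝ) := by rw [Real.rpow_one]
      _ = b ^ (1 + (3 + 1 / 42) : ℝ) := (Real.rpow_add hb0 _ _).symm
      _ ≤ b ^ (5 - 1 / 7 : ℝ) := Real.rpow_le_rpow_of_exponent_le hb1 (by norm_num)
  have hgood2 : ((goodF B W).card : ℝ) ≤ (176 * C1 + 240 * C2) * b ^ (5 - 1 / 7 : ℝ) := by
    calc ((goodF B W).card : ℝ) ≤ C1 * b ^ (1 / 42 : ℝ) * (qF B W).card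
          + 120 * (b + 1) * (qE B).card := hgood
      _ ≤ C1 * b ^ (1 / 42 : ℝ) * (176 * (v ^ 5 * b ^ 4))
          + 120 * (2 * b) * (C2 * b ^ (3 + 1 / 42 : ℝ)) := by
          refine add_le_add (mul_le_mul_of_nonneg_left hqF (by positivity)) ?_
          refine mul_le_mul (by linarith) hqE (Nat.cast_nonneg _) (by positivity)
      _ = 176 * C1 * (b ^ (1 / 42 : ℝ) * (v ^ 5 * b ^ 4))
          + 240 * C2 * (b * b ^ (3 + 1 / 42 : ℝ)) := by ring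
      _ ≤ 176 * C1 * b ^ (5 - 1 / 7 : ℝ) + 240 * C2 * b ^ (5 - 1 / 7 : ℝ) := by
          rw [hpow1]
          exact add_le_add le_rfl (mul_le_mul_of_nonneg_left hpow2 (by positivity))
      _ = (176 * C1 + 240 * C2) * b ^ (5 - 1 / 7 : ℝ) := by ring
  have had : ((adF 5 B).card : ℝ) ≤ 14400 * (goodF B W).card := by
    exact_mod_cast card_adF_le B W
  calc ((adF 5 B).card : ℝ) ≤ 14400 * (goodF B W).card := had
    _ ≤ 14400 * ((176 * C1 + 240 * C2) * b ^ (5 - 1 / 7 : ℝ)) :=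
        mul_le_mul_of_nonneg_left hgood2 (by norm_num)
    _ = 14400 * (176 * C1 + 240 * C2) * b ^ (5 - 1 / 7 : ℝ) := by ring

/-- the form used in `Pool.Agent.H19.N64.frozen_of_ad` -/
theorem h5 : ∃ C a : ℝ, a < 5 ∧ ∀ B : ℕ, 1 ≤ B → ((adF 5 B).card : ℝ) ≤ C * (B : ℝ) ^ a := by
  obtain ⟨C, hC⟩ := ad5_bound
  exact ⟨C, 5 - 1 / 7, by norm_num, hC⟩

end Pool.Agent.H62.N64F
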