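import Pool.Agent.H19.N64.AsmDefs
import Pool.Agent.H34.NA.Power

set_option autoImplicit false

/-! MODULE F/Base (about 120 lines). Block F (s = 5), MP_4f0605_nt: the basic identity.

PROOF of `prod_const`. `Pool.Agent.H34.NA.degree_prod_sub_lt` with `k = 4`, `card = 5`: the polynomial
`∏ (X - C (x i)) - ∏ (X - C (y i))` has degree `< 1`, so it is a constant `C c` (`Polynomial.eq_C_of_degree_le_zero`); evaluate at `t`.
PROOF of `exists_const`. For `p ∈ adF 5 B` (power sums cast to `ℤ`): at `t = y j`: `∏ i, (y j - x i) = c`; it is not zero because no factor vanishes.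
PROOF of `perm_of_eq`. If two solutions have the same `x` and `y 0 = y' 0`, then the constants `c` agree (`c = ∏ i, (y 0 - x i)`), so
`∏ (X - C (y i)) = ∏ (X - C (y' i))` as polynomials (they agree at every integer: `Polynomial.funext`), so the multisets of roots agree
(`Polynomial.roots_multiset_prod_X_sub_C`, see `Pool.Agent.H34.NA.multiset_eq_of_psum_eq`), and `exists_equiv_of_multiset_eq` gives the permutation.
PROOF of `exists_ne`. If `y i = y 0` for all `i`, then `∑ x i = 5 y`, `∑ x i ^ 2 = 5 y ^ 2`, so `∑ (x i - y)^2 = 0` in `ℤ` and `x 0 = y`, against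
`p.1 i ≠ p.2 j`. -/

open scoped BigOperators

namespace Pool.Agent.H62.N64F

open Pool.Agent.H19.N64

theorem prod_const (x y : Fin 5 → ℤ) (h : ∀ j, 1 ≤ j → j ≤ 4 → ∑ i, x i ^ j = ∑ i, y i ^ j) :
    ∃ c : ℤ, ∀ t : ℤ, ∏ i, (t - x i) = ∏ i, (t - y i) + c := by
  have h1 := Pool.Agent.H34.NA.degree_prod_sub_lt x y rfl 4 h
  have h2 : ((∏ i, (Polynomial.X - Polynomial.C (x i)))
      - ∏ i, (Polynomial.X - Polynomial.C (y i))).degree ≤ 0 := by
    rw [Polynomial.degree_lt_iff_coeff_zero] at h1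
    rw [Polynomial.degree_le_iff_coeff_zero]
    intro m hm
    have hm' : 0 < m := by exact_mod_cast hm
    refine h1 m ?_
    rw [Fintype.card_fin]
    omega
  have h4 := Polynomial.eq_C_of_degree_le_zero h2
  refine ⟨((∏ i, (Polynomial.X - Polynomial.C (x i))) -
    ∏ i, (Polynomial.X - Polynomial.C (y i))).coeff 0, fun t => ?_⟩
  have h5 := congrArg (Polynomial.eval t) h4
  rw [Polynomial.eval_sub, Polynomial.eval_prod, Polynomial.eval_prod, Polynomial.eval_C] at h5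
  simp only [Polynomial.eval_sub, Polynomial.eval_X, Polynomial.eval_C] at h5
  rw [← h5]
  ring

private lemma Base_psum {B : ℕ} {p : (Fin 5 → ℕ) × (Fin 5 → ℕ)} (hp : p ∈ adF 5 B) (j : ℕ)
    (h1 : 1 ≤ j) (h2 : j ≤ 4) : ∑ i, (p.1 i : ℤ) ^ j = ∑ i, (p.2 i : ℤ) ^ j := by
  have h := (mem_solF.1 (mem_adF.1 hp).1).2 j (Finset.mem_Icc.2 ⟨h1, h2⟩)
  exact_mod_cast h

theorem exists_const {B : ℕ} {p : (Fin 5 → ℕ) × (Fin 5 → ℕ)} (hp : p ∈ adF 5 B) :
    ∃ c : ℤ, c ≠ 0 ∧ (∀ j, ∏ i, ((p.2 j : ℤ) - p.1 i) = c) ∧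
      ∀ t : ℤ, ∏ i, (t - (p.1 i : ℤ)) = ∏ i, (t - (p.2 i : ℤ)) + c := by
  obtain ⟨c, hc⟩ := prod_const (fun i => (p.1 i : ℤ)) (fun i => (p.2 i : ℤ)) (Base_psum hp)
  have h1 : ∀ j, ∏ i, ((p.2 j : ℤ) - p.1 i) = c := by
    intro j
    rw [hc (p.2 j), Finset.prod_eq_zero (Finset.mem_univ j) (sub_self _), zero_add]
  refine ⟨c, ?_, h1, hc⟩
  rw [← h1 0]
  refine Finset.prod_ne_zero_iff.2 fun i _ => ?_
  rw [sub_ne_zero]
  exact_mod_cast ((mem_adF.1 hp).2 i 0).symm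

theorem perm_of_eq {B : ℕ} {p q : (Fin 5 → ℕ) × (Fin 5 → ℕ)} (hp : p ∈ adF 5 B)
    (hq : q ∈ adF 5 B) (h1 : p.1 = q.1) (h2 : p.2 0 = q.2 0) :
    ∃ τ : Equiv.Perm (Fin 5), ∀ i, q.2 i = p.2 (τ i) := by
  obtain ⟨c, _, hc1, hc2⟩ := exists_const hp
  obtain ⟨d, _, hd1, hd2⟩ := exists_const hq
  have hcd : c = d := by
    rw [← hc1 0, ← hd1 0, h1, h2]
  have h3 : (∏ i, (Polynomial.X - Polynomial.C (q.2 i : ℤ))) =
      ∏ i, (Polynomial.X - Polynomial.C (p.2 i : ℤ)) := by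
    refine Polynomial.funext fun t => ?_
    rw [Polynomial.eval_prod, Polynomial.eval_prod]
    simp only [Polynomial.eval_sub, Polynomial.eval_X, Polynomial.eval_C]
    have h4 := hc2 t
    rw [h1, hd2 t, hcd] at h4
    linarith
  rw [Pool.Agent.H34.NA.prod_X_sub_C_eq_multiset (fun i => (q.2 i : ℤ)),
    Pool.Agent.H34.NA.prod_X_sub_C_eq_multiset (fun i => (p.2 i : ℤ))] at h3
  have h5 := congrArg Polynomial.roots h3
  rw [Polynomial.roots_multiset_prod_X_sub_C, Polynomial.roots_multiset_prod_X_sub_C] at h5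
  obtain ⟨τ, hτ⟩ := Pool.Agent.H34.NA.exists_equiv_of_multiset_eq (fun i => (q.2 i : ℤ))
    (fun i => (p.2 i : ℤ)) h5
  exact ⟨τ, fun i => by exact_mod_cast hτ i⟩

theorem exists_ne {B : ℕ} {p : (Fin 5 → ℕ) × (Fin 5 → ℕ)} (hp : p ∈ adF 5 B) :
    ∃ i, p.2 i ≠ p.2 0 := by
  by_contra hcon
  push Not at hcon
  have h1 := Base_psum hp 1 (by norm_num) (by norm_num)
  have h2 := Base_psum hp 2 (by norm_num) (by norm_num)
  simp only [hcon, Finset.sum_const, Finset.card_univ, Fintype.card_fin, pow_one,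
    nsmul_eq_mul] at h1 h2
  have h3 : ∑ i, ((p.1 i : ℤ) - p.2 0) ^ 2 = 0 := by
    have h4 : ∀ i, ((p.1 i : ℤ) - p.2 0) ^ 2 = (p.1 i : ℤ) ^ 2 - 2 * p.2 0 * p.1 i +
        (p.2 0 : ℤ) ^ 2 := fun i => by ring
    rw [Finset.sum_congr rfl fun i _ => h4 i, Finset.sum_add_distrib, Finset.sum_sub_distrib,
      ← Finset.mul_sum, h1, h2]
    simp only [Finset.sum_const, Finset.card_univ, Fintype.card_fin, nsmul_eq_mul]
    push_cast
    ring
  rw [Finset.sum_eq_zero_iff_of_nonneg fun i _ => sq_nonneg _] at h3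
  have h5 := h3 0 (Finset.mem_univ 0)
  have h6 : (p.1 0 : ℤ) = p.2 0 := sub_eq_zero.1 (pow_eq_zero_iff (two_ne_zero) |>.1 h5)
  exact (mem_adF.1 hp).2 0 0 (by exact_mod_cast h6)

end Pool.Agent.H62.N64F
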