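import Pool.Agent.H62.N64F.Base

set_option autoImplicit false

/-! MODULE F/Cover (about 120 lines). Block F (s = 5), MP_4f0605_nt: after permuting, two differences are small or have a large gcd.

`goodF B W`: the solutions with `y 0 ≠ y 1` and (`|y 0 - x 0| ≤ W^5` or `gcd (y 0 - x 0, y 1 - x 0) > W` or `gcd (y 0 - x 0, y 1 - x 1) > W`).

PROOF of `card_adF_le`. Let `p ∈ adF 5 B`. By `exists_ne` there is `j` with `y j ≠ y 0`; after a permutation of the `y`'s, `y 0 ≠ y 1`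
(`Equiv.swap 1 j`). Let `d = y 0 - x 0`. By `exists_const`, `d ∣ ∏ i, (y 0 - x i) = c = ∏ i, (y 1 - x i)`. If `gcd (d, y 1 - x i) ≤ W` for all `i`,
then `|d| ≤ ∏ i, gcd (d, y 1 - x i) ≤ W^5` (`d ∣ ∏ a i` implies `d ∣ ∏ gcd (d, a i)`: `Nat.gcd_mul_dvd_mul_gcd`, `Nat.Coprime`.. or
`Finset.induction`: `gcd (d, a b) ∣ gcd (d, a) gcd (d, b)` = Mathlib `Nat.gcd_mul_right_dvd_mul_gcd` / `Int.gcd`): `p` is good. Otherwise
`gcd (d, y 1 - x i) > W` for some `i`: if `i = 0` good; if `i ≠ 0`, permute the `x`'s by `Equiv.swap 1 i` (this fixes `x 0`): good.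
So `p` is the image of an element of `goodF B W` under a pair of permutations: `adF 5 B ⊆ ⋃_{σ, τ} image of goodF` and
`card (adF 5 B) ≤ (5!)^2 card (goodF B W) = 14400 card (goodF B W)` (`Finset.card_biUnion_le`, `Finset.card_image_le`). `adF 5 B` is stable under
permutations (`mem_adF`, `mem_solF`, `Equiv.sum_comp`). -/

open scoped BigOperators

namespace Pool.Agent.H62.N64F

open Pool.Agent.H19.N64

/-- the solutions with `y 0 ≠ y 1` and a small difference or a large gcd -/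
def goodF (B W : ℕ) : Finset ((Fin 5 → ℕ) × (Fin 5 → ℕ)) :=
  (adF 5 B).filter fun p => p.2 0 ≠ p.2 1 ∧
    (((p.2 0 : ℤ) - p.1 0).natAbs ≤ W ^ 5 ∨
      W < Int.gcd ((p.2 0 : ℤ) - p.1 0) ((p.2 1 : ℤ) - p.1 0) ∨
      W < Int.gcd ((p.2 0 : ℤ) - p.1 0) ((p.2 1 : ℤ) - p.1 1))

lemma mem_goodF {B W : ℕ} {p : (Fin 5 → ℕ) × (Fin 5 → ℕ)} :
    p ∈ goodF B W ↔ p ∈ adF 5 B ∧ p.2 0 ≠ p.2 1 ∧
    (((p.2 0 : ℤ) - p.1 0).natAbs ≤ W ^ 5 ∨
      W < Int.gcd ((p.2 0 : ℤ) - p.1 0) ((p.2 1 : ℤ) - p.1 0) ∨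
      W < Int.gcd ((p.2 0 : ℤ) - p.1 0) ((p.2 1 : ℤ) - p.1 1)) := by
  simp [goodF]

private lemma Cover_adF_perm {B : ℕ} {p : (Fin 5 → ℕ) × (Fin 5 → ℕ)} (hp : p ∈ adF 5 B)
    (σ τ : Equiv.Perm (Fin 5)) :
    ((fun i => p.1 (σ i), fun i => p.2 (τ i)) : (Fin 5 → ℕ) × (Fin 5 → ℕ)) ∈ adF 5 B := by
  rw [mem_adF, mem_solF] at hp ⊢
  obtain ⟨⟨⟨h1, h2⟩, h3⟩, h4⟩ := hp
  refine ⟨⟨⟨fun i => h1 _, fun i => h2 _⟩, fun j hj => ?_⟩, fun i j => h4 _ _⟩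
  have e1 := Equiv.sum_comp σ (fun i => p.1 i ^ j)
  have e2 := Equiv.sum_comp τ (fun i => p.2 i ^ j)
  show ∑ i, p.1 (σ i) ^ j = ∑ i, p.2 (τ i) ^ j
  rw [e1, e2]
  exact h3 j hj

private lemma Cover_gcd_dvd (n : ℕ) (a : Fin 5 → ℕ) (s : Finset (Fin 5)) :
    Nat.gcd n (∏ i ∈ s, a i) ∣ ∏ i ∈ s, Nat.gcd n (a i) := by
  induction s using Finset.induction_on with
  | empty => simp
  | insert i s hi ih =>
    rw [Finset.prod_insert hi, Finset.prod_insert hi]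
    exact (Nat.gcd_mul_right_dvd_mul_gcd n (a i) (∏ i ∈ s, a i)).trans
      (Nat.mul_dvd_mul_left _ ih)

private lemma Cover_le (W n : ℕ) (hn : n ≠ 0) (a : Fin 5 → ℕ) (h : n ∣ ∏ i, a i)
    (hg : ∀ i, Nat.gcd n (a i) ≤ W) : n ≤ W ^ 5 := by
  have h1 : n ∣ ∏ i, Nat.gcd n (a i) := by
    have h2 := Cover_gcd_dvd n a Finset.univ
    rwa [Nat.gcd_eq_left h] at h2
  have h3 : 0 < ∏ i, Nat.gcd n (a i) :=
    Finset.prod_pos fun i _ => Nat.gcd_pos_of_pos_left _ (Nat.pos_of_ne_zero hn)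
  refine (Nat.le_of_dvd h3 h1).trans ?_
  calc ∏ i, Nat.gcd n (a i) ≤ ∏ _i : Fin 5, W := Finset.prod_le_prod' fun i _ => hg i
    _ = W ^ 5 := by simp

private lemma Cover_natAbs_prod (f : Fin 5 → ℤ) : (∏ i, f i).natAbs = ∏ i, (f i).natAbs :=
  map_prod Int.natAbsHom f Finset.univ

private lemma Cover_good {B W : ℕ} {p : (Fin 5 → ℕ) × (Fin 5 → ℕ)} (hp : p ∈ adF 5 B) :
    ∃ σ τ : Equiv.Perm (Fin 5),
      ((fun i => p.1 (σ i), fun i => p.2 (τ i)) : (Fin 5 → ℕ) × (Fin 5 → ℕ)) ∈ goodF B W := by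
  obtain ⟨j, hj⟩ := exists_ne hp
  obtain ⟨c, hc0, hc, -⟩ := exists_const hp
  have hne := (mem_adF.1 hp).2
  have hj0 : j ≠ 0 := by
    intro h
    rw [h] at hj
    exact hj rfl
  have t0 : Equiv.swap (1 : Fin 5) j 0 = 0 :=
    Equiv.swap_apply_of_ne_of_ne (by decide) (Ne.symm hj0)
  have t1 : Equiv.swap (1 : Fin 5) j 1 = j := Equiv.swap_apply_left _ _
  have hd0 : ((p.2 0 : ℤ) - p.1 0).natAbs ≠ 0 := by
    intro h
    have h2 : (p.2 0 : ℤ) = p.1 0 := by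
      have := Int.natAbs_eq_zero.1 h
      linarith
    exact hne 0 0 (by exact_mod_cast h2.symm)
  have hdvd : ((p.2 0 : ℤ) - p.1 0).natAbs ∣ ∏ i, ((p.2 j : ℤ) - p.1 i).natAbs := by
    rw [← Cover_natAbs_prod, Int.natAbs_dvd_natAbs, hc j, ← hc 0]
    exact Finset.dvd_prod_of_mem _ (Finset.mem_univ 0)
  by_cases hsmall : ((p.2 0 : ℤ) - p.1 0).natAbs ≤ W ^ 5
  · refine ⟨1, Equiv.swap 1 j, mem_goodF.2 ⟨Cover_adF_perm hp _ _, ?_, Or.inl ?_⟩⟩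
    · show p.2 (Equiv.swap 1 j 0) ≠ p.2 (Equiv.swap 1 j 1)
      rw [t0, t1]
      exact Ne.symm hj
    · show ((p.2 (Equiv.swap 1 j 0) : ℤ) - p.1 0).natAbs ≤ W ^ 5
      rw [t0]
      exact hsmall
  · have hex : ∃ i, W < Nat.gcd ((p.2 0 : ℤ) - p.1 0).natAbs ((p.2 j : ℤ) - p.1 i).natAbs := by
      by_contra hcon
      push Not at hcon
      exact hsmall (Cover_le W _ hd0 _ hdvd hcon)
    obtain ⟨i, hi⟩ := hex
    by_cases hi0 : i = 0
    · rw [hi0] at hi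
      refine ⟨1, Equiv.swap 1 j, mem_goodF.2 ⟨Cover_adF_perm hp _ _, ?_, Or.inr (Or.inl ?_)⟩⟩
      · show p.2 (Equiv.swap 1 j 0) ≠ p.2 (Equiv.swap 1 j 1)
        rw [t0, t1]
        exact Ne.symm hj
      · show W < Int.gcd ((p.2 (Equiv.swap 1 j 0) : ℤ) - p.1 0)
          ((p.2 (Equiv.swap 1 j 1) : ℤ) - p.1 0)
        rw [t0, t1]
        exact hi
    · have s0 : Equiv.swap (1 : Fin 5) i 0 = 0 :=
        Equiv.swap_apply_of_ne_of_ne (by decide) (Ne.symm hi0)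
      have s1 : Equiv.swap (1 : Fin 5) i 1 = i := Equiv.swap_apply_left _ _
      refine ⟨Equiv.swap 1 i, Equiv.swap 1 j,
        mem_goodF.2 ⟨Cover_adF_perm hp _ _, ?_, Or.inr (Or.inr ?_)⟩⟩
      · show p.2 (Equiv.swap 1 j 0) ≠ p.2 (Equiv.swap 1 j 1)
        rw [t0, t1]
        exact Ne.symm hj
      · show W < Int.gcd ((p.2 (Equiv.swap 1 j 0) : ℤ) - p.1 (Equiv.swap 1 i 0))
          ((p.2 (Equiv.swap 1 j 1) : ℤ) - p.1 (Equiv.swap 1 i 1))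
        rw [t0, t1, s0, s1]
        exact hi

private lemma Cover_gen {G X : Type*} [Fintype G] (act : G → X → X)
    (A S : Finset X) (h : ∀ p ∈ A, ∃ g, ∃ q ∈ S, act g q = p) :
    A.card ≤ Fintype.card G * S.card := by
  classical
  have hsub : A ⊆ (Finset.univ : Finset G).biUnion (fun g => S.image (act g)) := by
    intro p hp
    obtain ⟨g, q, hq, hgq⟩ := h p hp
    exact Finset.mem_biUnion.2 ⟨g, Finset.mem_univ _, Finset.mem_image.2 ⟨q, hq, hgq⟩⟩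
  refine (Finset.card_le_card hsub).trans (Finset.card_biUnion_le.trans ?_)
  calc ∑ g : G, (S.image (act g)).card ≤ (Finset.univ : Finset G).card • S.card :=
        Finset.sum_le_card_nsmul _ _ _ fun g _ => Finset.card_image_le
    _ = Fintype.card G * S.card := by rw [smul_eq_mul, Finset.card_univ]

theorem card_adF_le (B W : ℕ) : (adF 5 B).card ≤ 14400 * (goodF B W).card := by
  have h := Cover_gen (fun (s : Equiv.Perm (Fin 5) × Equiv.Perm (Fin 5))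
    (g : (Fin 5 → ℕ) × (Fin 5 → ℕ)) => ((fun i => g.1 (s.1 i), fun i => g.2 (s.2 i)) :
      (Fin 5 → ℕ) × (Fin 5 → ℕ))) (adF 5 B) (goodF B W) (fun p hp => by
    obtain ⟨σ, τ, h⟩ := Cover_good (W := W) hp
    refine ⟨(σ⁻¹, τ⁻¹), _, h, ?_⟩
    refine Prod.ext (funext fun i => ?_) (funext fun i => ?_)
    · exact congrArg p.1 (Equiv.apply_symm_apply σ i)
    · exact congrArg p.2 (Equiv.apply_symm_apply τ i))
  have hcard : Fintype.card (Equiv.Perm (Fin 5) × Equiv.Perm (Fin 5)) = 14400 := by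
    rw [Fintype.card_prod, Fintype.card_perm, Fintype.card_fin]
    norm_num [Nat.factorial]
  rw [hcard] at h
  exact h

end Pool.Agent.H62.N64F
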