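import Mathlib

set_option autoImplicit false

/-! MODULE F/Div2 (about 80 lines). Block F (s = 5), MP_4f0605_nt: solutions of `(a u - b) (a v - c) = n`.

PROOF. `a ≠ 0`, `n ≠ 0`: the map `(u, v) ↦ a u - b` is injective on the solutions (`a u - b` determines `u`, it is not zero, so
`a v - c = n / (a u - b)` is determined, hence `v`), and its values are integers dividing `n`; there are at most
`2 d(|n|)` of them (`Int.natAbs` maps them into `n.natAbs.divisors`, fibres of size at most 2: `Int.natAbs_eq`; or use `Finset.card_le_card` in the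
image of `divisors` under `d ↦ d` and `d ↦ -d`). -/

namespace Pool.Agent.H62.N64F

theorem card_hyperbola (S : Finset (ℤ × ℤ)) (a b c n : ℤ) (ha : a ≠ 0) (hn : n ≠ 0)
    (h : ∀ p ∈ S, (a * p.1 - b) * (a * p.2 - c) = n) :
    S.card ≤ 2 * n.natAbs.divisors.card := by
  classical
  let T : Finset ℤ := n.natAbs.divisors.image (fun d : ℕ => (d : ℤ)) ∪
    n.natAbs.divisors.image (fun d : ℕ => -(d : ℤ))
  have hT : T.card ≤ 2 * n.natAbs.divisors.card := by
    refine (Finset.card_union_le _ _).trans ?_
    have h1 := Finset.card_image_le (s := n.natAbs.divisors) (f := fun d : ℕ => (d : ℤ))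
    have h2 := Finset.card_image_le (s := n.natAbs.divisors) (f := fun d : ℕ => -(d : ℤ))
    omega
  refine le_trans ?_ hT
  refine Finset.card_le_card_of_injOn (fun p => a * p.1 - b) ?_ ?_
  · intro p hp
    have h1 := h p hp
    have hdvd : (a * p.1 - b) ∣ n := ⟨_, h1.symm⟩
    have hd : (a * p.1 - b).natAbs ∈ n.natAbs.divisors := by
      rw [Nat.mem_divisors]
      exact ⟨Int.natAbs_dvd_natAbs.2 hdvd, Int.natAbs_ne_zero.2 hn⟩
    rw [Finset.mem_coe]
    change a * p.1 - b ∈ T
    rw [Finset.mem_union, Finset.mem_image, Finset.mem_image]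
    rcases Int.natAbs_eq (a * p.1 - b) with h2 | h2
    · exact Or.inl ⟨_, hd, h2.symm⟩
    · exact Or.inr ⟨_, hd, h2.symm⟩
  · intro p hp q hq hpq
    have h1 := h p hp
    have h2 := h q hq
    have hpq' : a * p.1 - b = a * q.1 - b := hpq
    have h3 : a * p.1 - b ≠ 0 := by
      intro h0
      rw [h0, zero_mul] at h1
      exact hn h1.symm
    have h4 : p.1 = q.1 := mul_left_cancel₀ ha (by linarith)
    have h5 : a * p.2 - c = a * q.2 - c := by
      apply mul_left_cancel₀ h3
      rw [h1]
      rw [hpq', h2]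
    have h6 : p.2 = q.2 := mul_left_cancel₀ ha (by linarith)
    exact Prod.ext h4 h6

end Pool.Agent.H62.N64F
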