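import Pool.Agent.H62.N64F.Gcd
import Pool.Agent.H62.N64F.Div2
import Pool.Agent.H56.DivBound

set_option autoImplicit false

/-! MODULE F/Quint (about 150 lines). Block F (s = 5), MP_4f0605_nt: counting the 5-tuples `(x 0, x 1, x 2; y 0, y 1)`.

`qF B W` = the 5-tuples in `[0,B]` with `x i ≠ y j`, `y 0 ≠ y 1`, and a small difference or a large gcd.
PROOF of `card_qF_le`. Union of three sets. First: `|y 0 - x 0| ≤ W^5`: the map `(x, y) ↦ (y 0 - x 0, x, y 1)` is injective with values in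
`[-W^5, W^5] × [0,B]^3 × [0,B]`: at most `(2 W^5 + 1) (B+1)^4`. Second: the map `(x, y) ↦ ((y 0 - x 0, y 1 - x 0), x)` is injective with values in
(set of `gcd_count` with `W + 1`) `× [0,B]^3`: at most `8 B^2 / (W+1) (B+1)^3`. Third: the same with `(y 0 - x 0, y 1 - x 1)`.
`qE B` = the 5-tuples with `x i ≠ y j`, `y 0 ≠ y 1` and `∏ (y 0 - x i) = ∏ (y 1 - x i)`.
PROOF of `card_qE_le`. For fixed `(x 0, y 0, y 1)` (at most `(B+1)^3` choices) put `al = x 0 - y 0 - y 1`; then (`y 0 ≠ y 1` cancelled)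
`(x 1 + al) (x 2 + al) = (x 0 - y 0) (x 0 - y 1) ≠ 0`: indeed `∏ (y 0 - x i) - ∏ (y 1 - x i) = (y 0 - y 1) *
(y 0^2 + y 0 y 1 + y 1^2 - e1 (y 0 + y 1) + e2)` and `e1 = x 0 + x 1 + x 2`, `e2 = x 0 (x 1 + x 2) + x 1 x 2` (`ring`). By `card_hyperbola`
(`a = 1`) at most `2 d(n)` pairs `(x 1, x 2)`, `n = |(x 0 - y 0) (x 0 - y 1)| ≤ B^2`, and `d(n) ≤ C n^ε ≤ C B^(2 ε)`
(`Pool.Agent.H56.DivBound.divisors_card_le`). -/

open scoped BigOperators

namespace Pool.Agent.H62.N64F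

/-- the box for the 5-tuples -/
def qBox (B : ℕ) : Finset ((Fin 3 → ℕ) × (Fin 2 → ℕ)) :=
  (Fintype.piFinset fun _ : Fin 3 => Finset.range (B + 1)) ×ˢ
    (Fintype.piFinset fun _ : Fin 2 => Finset.range (B + 1))

/-- small difference or large gcd -/
def qF (B W : ℕ) : Finset ((Fin 3 → ℕ) × (Fin 2 → ℕ)) :=
  (qBox B).filter fun q => (∀ i j, q.1 i ≠ q.2 j) ∧ q.2 0 ≠ q.2 1 ∧
    (((q.2 0 : ℤ) - q.1 0).natAbs ≤ W ^ 5 ∨
      W < Int.gcd ((q.2 0 : ℤ) - q.1 0) ((q.2 1 : ℤ) - q.1 0) ∨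
      W < Int.gcd ((q.2 0 : ℤ) - q.1 0) ((q.2 1 : ℤ) - q.1 1))

/-- equal values of the cubic -/
def qE (B : ℕ) : Finset ((Fin 3 → ℕ) × (Fin 2 → ℕ)) :=
  (qBox B).filter fun q => (∀ i j, q.1 i ≠ q.2 j) ∧ q.2 0 ≠ q.2 1 ∧
    ∏ i, ((q.2 0 : ℤ) - q.1 i) = ∏ i, ((q.2 1 : ℤ) - q.1 i)

private theorem Quint_mem {B : ℕ} {q : (Fin 3 → ℕ) × (Fin 2 → ℕ)} (hq : q ∈ qBox B) :
    (∀ i, q.1 i ≤ B) ∧ ∀ j, q.2 j ≤ B := by
  rw [qBox, Finset.mem_product, Fintype.mem_piFinset, Fintype.mem_piFinset] at hq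
  exact ⟨fun i => Nat.lt_succ_iff.1 (Finset.mem_range.1 (hq.1 i)),
    fun j => Nat.lt_succ_iff.1 (Finset.mem_range.1 (hq.2 j))⟩

private theorem Quint_card3 (B : ℕ) :
    (Fintype.piFinset fun _ : Fin 3 => Finset.range (B + 1)).card = (B + 1) ^ 3 := by
  rw [Fintype.card_piFinset]
  simp

/-- the set of `gcd_count` -/
private noncomputable def Quint_G (B W : ℕ) : Finset (ℤ × ℤ) :=
  (Finset.Icc (-(B : ℤ)) B ×ˢ Finset.Icc (-(B : ℤ)) B).filter
      (fun p : ℤ × ℤ => p.1 ≠ 0 ∧ p.2 ≠ 0 ∧ W ≤ Int.gcd p.1 p.2)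

private theorem Quint_Fsub (B W : ℕ) (i : Fin 3) :
    ((((qBox B).filter fun q => (∀ i j, q.1 i ≠ q.2 j) ∧
      W < Int.gcd ((q.2 0 : ℤ) - q.1 0) ((q.2 1 : ℤ) - q.1 i)).card : ℕ) : ℝ)
      ≤ 8 * (B : ℝ) ^ 2 / ((W : ℝ) + 1) * ((B : ℝ) + 1) ^ 3 := by
  classical
  have h1 : ((qBox B).filter fun q => (∀ i j, q.1 i ≠ q.2 j) ∧
      W < Int.gcd ((q.2 0 : ℤ) - q.1 0) ((q.2 1 : ℤ) - q.1 i)).card ≤
      (Quint_G B (W + 1) ×ˢ (Fintype.piFinset fun _ : Fin 3 => Finset.range (B + 1))).card := by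
    refine Finset.card_le_card_of_injOn
      (fun q => ((((q.2 0 : ℤ) - q.1 0), ((q.2 1 : ℤ) - q.1 i)), q.1)) ?_ ?_
    · intro q hq
      rw [Finset.mem_coe, Finset.mem_filter] at hq
      obtain ⟨hq1, hq2, hq3⟩ := hq
      obtain ⟨ha, hb⟩ := Quint_mem hq1
      rw [Finset.mem_coe, Finset.mem_product]
      refine ⟨?_, ?_⟩
      · rw [Quint_G, Finset.mem_filter, Finset.mem_product, Finset.mem_Icc, Finset.mem_Icc]
        have h0 := ha 0
        have hi := ha i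
        have hy0 := hb 0
        have hy1 := hb 1
        have e0 := hq2 0 0
        have e1 := hq2 i 1
        refine ⟨⟨⟨?_, ?_⟩, ?_, ?_⟩, ?_, ?_, ?_⟩
        · simp only; omega
        · simp only; omega
        · simp only; omega
        · simp only; omega
        · simp only; omega
        · simp only; omega
        · exact hq3
      · rw [qBox, Finset.mem_product] at hq1
        exact hq1.1
    · intro q hq q' hq' h
      simp only [Prod.mk.injEq] at h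
      obtain ⟨⟨h2, h3⟩, h4⟩ := h
      refine Prod.ext h4 ?_
      rw [h4] at h2 h3
      funext j
      fin_cases j
      · simp only [Fin.zero_eta]
        omega
      · simp only [Fin.mk_one]
        omega
  have h2 := gcd_count B (W + 1) (Nat.le_add_left 1 W)
  have h3 : ((Quint_G B (W + 1)).card : ℝ) ≤ 8 * (B : ℝ) ^ 2 / ((W : ℝ) + 1) := by
    have h4 := h2
    push_cast at h4
    exact h4
  calc ((((qBox B).filter fun q => (∀ i j, q.1 i ≠ q.2 j) ∧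
      W < Int.gcd ((q.2 0 : ℤ) - q.1 0) ((q.2 1 : ℤ) - q.1 i)).card : ℕ) : ℝ)
      ≤ (((Quint_G B (W + 1) ×ˢ
        (Fintype.piFinset fun _ : Fin 3 => Finset.range (B + 1))).card : ℕ) : ℝ) := by
        exact_mod_cast h1
    _ = ((Quint_G B (W + 1)).card : ℝ) * ((B : ℝ) + 1) ^ 3 := by
        rw [Finset.card_product, Quint_card3]
        push_cast
        ring
    _ ≤ _ := mul_le_mul_of_nonneg_right h3 (by positivity)

private theorem Quint_F1 (B W : ℕ) :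
    ((((qBox B).filter fun q => ((q.2 0 : ℤ) - q.1 0).natAbs ≤ W ^ 5).card : ℕ) : ℝ)
      ≤ (2 * (W : ℝ) ^ 5 + 1) * ((B : ℝ) + 1) ^ 4 := by
  classical
  have h1 : ((qBox B).filter fun q => ((q.2 0 : ℤ) - q.1 0).natAbs ≤ W ^ 5).card ≤
      (Finset.Icc (-((W ^ 5 : ℕ) : ℤ)) ((W ^ 5 : ℕ) : ℤ) ×ˢ
        ((Fintype.piFinset fun _ : Fin 3 => Finset.range (B + 1)) ×ˢ
          Finset.range (B + 1))).card := by
    refine Finset.card_le_card_of_injOn
      (fun q => (((q.2 0 : ℤ) - q.1 0), (q.1, q.2 1))) ?_ ?_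
    · intro q hq
      rw [Finset.mem_coe, Finset.mem_filter] at hq
      obtain ⟨hq1, hq2⟩ := hq
      have hb := (Quint_mem hq1).2 1
      rw [Finset.mem_coe, Finset.mem_product, Finset.mem_product, Finset.mem_Icc]
      refine ⟨⟨?_, ?_⟩, ?_, ?_⟩
      · simp only; omega
      · simp only; omega
      · rw [qBox, Finset.mem_product] at hq1
        exact hq1.1
      · rw [Finset.mem_range]
        simp only
        omega
    · intro q hq q' hq' h
      simp only [Prod.mk.injEq] at h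
      obtain ⟨h2, h4, h3⟩ := h
      refine Prod.ext h4 ?_
      rw [h4] at h2
      funext j
      fin_cases j
      · simp only [Fin.zero_eta]
        omega
      · simp only [Fin.mk_one]
        omega
  have h2 : (Finset.Icc (-((W ^ 5 : ℕ) : ℤ)) ((W ^ 5 : ℕ) : ℤ)).card = 2 * W ^ 5 + 1 := by
    rw [Int.card_Icc]
    omega
  calc ((((qBox B).filter fun q => ((q.2 0 : ℤ) - q.1 0).natAbs ≤ W ^ 5).card : ℕ) : ℝ)
      ≤ (((Finset.Icc (-((W ^ 5 : ℕ) : ℤ)) ((W ^ 5 : ℕ) : ℤ) ×ˢ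
        ((Fintype.piFinset fun _ : Fin 3 => Finset.range (B + 1)) ×ˢ
          Finset.range (B + 1))).card : ℕ) : ℝ) := by exact_mod_cast h1
    _ = _ := by
        rw [Finset.card_product, Finset.card_product, Quint_card3, h2, Finset.card_range]
        push_cast
        ring

theorem card_qF_le (B W : ℕ) :
    ((qF B W).card : ℝ) ≤ (2 * (W : ℝ) ^ 5 + 1) * ((B : ℝ) + 1) ^ 4
      + 16 * (B : ℝ) ^ 2 / ((W : ℝ) + 1) * ((B : ℝ) + 1) ^ 3 := by
  classical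
  have h0 : qF B W ⊆ ((qBox B).filter fun q => ((q.2 0 : ℤ) - q.1 0).natAbs ≤ W ^ 5) ∪
      (((qBox B).filter fun q => (∀ i j, q.1 i ≠ q.2 j) ∧
        W < Int.gcd ((q.2 0 : ℤ) - q.1 0) ((q.2 1 : ℤ) - q.1 0)) ∪
      ((qBox B).filter fun q => (∀ i j, q.1 i ≠ q.2 j) ∧
        W < Int.gcd ((q.2 0 : ℤ) - q.1 0) ((q.2 1 : ℤ) - q.1 1))) := by
    intro q hq
    rw [qF, Finset.mem_filter] at hq
    obtain ⟨h1, h2, -, h3⟩ := hq
    rw [Finset.mem_union, Finset.mem_union, Finset.mem_filter, Finset.mem_filter,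
      Finset.mem_filter]
    rcases h3 with h3 | h3 | h3
    · exact Or.inl ⟨h1, h3⟩
    · exact Or.inr (Or.inl ⟨h1, h2, h3⟩)
    · exact Or.inr (Or.inr ⟨h1, h2, h3⟩)
  have h1 := (Finset.card_le_card h0).trans ((Finset.card_union_le _ _).trans
    (Nat.add_le_add_left (Finset.card_union_le _ _) _))
  have h2 : ((qF B W).card : ℝ) ≤
      ((((qBox B).filter fun q => ((q.2 0 : ℤ) - q.1 0).natAbs ≤ W ^ 5).card : ℕ) : ℝ) +
      (((((qBox B).filter fun q => (∀ i j, q.1 i ≠ q.2 j) ∧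
        W < Int.gcd ((q.2 0 : ℤ) - q.1 0) ((q.2 1 : ℤ) - q.1 0)).card : ℕ) : ℝ) +
      ((((qBox B).filter fun q => (∀ i j, q.1 i ≠ q.2 j) ∧
        W < Int.gcd ((q.2 0 : ℤ) - q.1 0) ((q.2 1 : ℤ) - q.1 1)).card : ℕ) : ℝ)) := by
    exact_mod_cast h1
  have h3 := Quint_F1 B W
  have h4 := Quint_Fsub B W 0
  have h5 := Quint_Fsub B W 1
  have h6 : 16 * (B : ℝ) ^ 2 / ((W : ℝ) + 1) * ((B : ℝ) + 1) ^ 3 =
      8 * (B : ℝ) ^ 2 / ((W : ℝ) + 1) * ((B : ℝ) + 1) ^ 3 +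
      8 * (B : ℝ) ^ 2 / ((W : ℝ) + 1) * ((B : ℝ) + 1) ^ 3 := by ring
  rw [h6]
  linarith

private theorem Quint_alg (x0 x1 x2 y0 y1 : ℤ) (hy : y0 ≠ y1)
    (h : (y0 - x0) * (y0 - x1) * (y0 - x2) = (y1 - x0) * (y1 - x1) * (y1 - x2)) :
    (1 * x1 - (y0 + y1 - x0)) * (1 * x2 - (y0 + y1 - x0)) = (x0 - y0) * (x0 - y1) := by
  have h1 : (y0 - y1) * ((1 * x1 - (y0 + y1 - x0)) * (1 * x2 - (y0 + y1 - x0)) -
      (x0 - y0) * (x0 - y1)) = 0 := by
    linear_combination h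
  rcases mul_eq_zero.1 h1 with h2 | h2
  · exact absurd (sub_eq_zero.1 h2) hy
  · exact sub_eq_zero.1 h2

theorem card_qE_le (ε : ℝ) (hε : 0 < ε) :
    ∃ C : ℝ, 0 < C ∧ ∀ B : ℕ, 1 ≤ B → ((qE B).card : ℝ) ≤ C * (B : ℝ) ^ (3 + ε) := by
  classical
  obtain ⟨C, hC, hdiv⟩ := Pool.Agent.H56.DivBound.divisors_card_le (ε / 2) (by positivity)
  refine ⟨16 * C, by positivity, fun B hB => ?_⟩
  have hB0 : (0 : ℝ) < B := by exact_mod_cast hB
  set R : ℝ := 2 * (C * (B : ℝ) ^ ε) with hR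
  have hR0 : 0 ≤ R := by positivity
  set f : ((Fin 3 → ℕ) × (Fin 2 → ℕ)) → ℕ × ℕ × ℕ := fun q => (q.1 0, q.2 0, q.2 1) with hf
  set t : Finset (ℕ × ℕ × ℕ) :=
    Finset.range (B + 1) ×ˢ (Finset.range (B + 1) ×ˢ Finset.range (B + 1)) with ht
  have hmaps : ∀ q ∈ qE B, f q ∈ t := by
    intro q hq
    rw [qE, Finset.mem_filter] at hq
    obtain ⟨ha, hb⟩ := Quint_mem hq.1
    rw [ht, Finset.mem_product, Finset.mem_product, Finset.mem_range, Finset.mem_range,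
      Finset.mem_range]
    exact ⟨Nat.lt_succ_of_le (ha 0), Nat.lt_succ_of_le (hb 0), Nat.lt_succ_of_le (hb 1)⟩
  have hfib : ∀ w ∈ t, ((qE B).filter fun q => f q = w).card ≤ ⌊R⌋₊ := by
    intro w _
    by_cases hne : ((qE B).filter fun q => f q = w).Nonempty
    swap
    · rw [Finset.not_nonempty_iff_eq_empty] at hne
      rw [hne, Finset.card_empty]
      exact Nat.zero_le _
    obtain ⟨q0, hq0⟩ := hne
    rw [Finset.mem_filter, qE, Finset.mem_filter] at hq0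
    obtain ⟨⟨hq0b, hq0n, hq0y, -⟩, hq0f⟩ := hq0
    obtain ⟨ha0, hb0⟩ := Quint_mem hq0b
    obtain ⟨a, b, c⟩ := w
    simp only [hf, Prod.mk.injEq] at hq0f
    obtain ⟨rfl, rfl, rfl⟩ := hq0f
    set n : ℤ := ((q0.1 0 : ℤ) - q0.2 0) * ((q0.1 0 : ℤ) - q0.2 1) with hn
    have hn0 : n ≠ 0 := by
      have e1 := hq0n 0 0
      have e2 := hq0n 0 1
      refine mul_ne_zero ?_ ?_ <;> omega
    set S : Finset (ℤ × ℤ) := ((qE B).filter fun q => f q = (q0.1 0, q0.2 0, q0.2 1)).image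
      (fun q => ((q.1 1 : ℤ), (q.1 2 : ℤ))) with hS
    have hinj : S.card = ((qE B).filter fun q => f q = (q0.1 0, q0.2 0, q0.2 1)).card := by
      rw [hS]
      refine Finset.card_image_of_injOn ?_
      intro q hq q' hq' h
      rw [Finset.mem_coe, Finset.mem_filter] at hq hq'
      have e1 := hq.2
      have e2 := hq'.2
      simp only [hf, Prod.mk.injEq] at e1 e2
      simp only [Prod.mk.injEq, Nat.cast_inj] at h
      refine Prod.ext ?_ ?_
      · funext i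
        fin_cases i
        · exact e1.1.trans e2.1.symm
        · exact h.1
        · exact h.2
      · funext j
        fin_cases j
        · exact e1.2.1.trans e2.2.1.symm
        · exact e1.2.2.trans e2.2.2.symm
    have hhyp : ∀ p ∈ S, (1 * p.1 - ((q0.2 0 : ℤ) + q0.2 1 - q0.1 0)) *
        (1 * p.2 - ((q0.2 0 : ℤ) + q0.2 1 - q0.1 0)) = n := by
      intro p hp
      rw [hS, Finset.mem_image] at hp
      obtain ⟨q, hq, rfl⟩ := hp
      rw [Finset.mem_filter, qE, Finset.mem_filter] at hq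
      obtain ⟨⟨-, -, hqy, hqe⟩, hqf⟩ := hq
      simp only [hf, Prod.mk.injEq] at hqf
      rw [Fin.prod_univ_three, Fin.prod_univ_three] at hqe
      rw [hn, ← hqf.1, ← hqf.2.1, ← hqf.2.2]
      refine Quint_alg _ _ _ _ _ ?_ hqe
      exact_mod_cast hqy
    have h1 := card_hyperbola S 1 _ _ n one_ne_zero hn0 hhyp
    rw [hinj] at h1
    refine h1.trans (Nat.le_floor ?_)
    have hnat : n.natAbs ≠ 0 := Int.natAbs_ne_zero.2 hn0
    have h2 := hdiv n.natAbs hnat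
    have h3 : (n.natAbs : ℝ) ≤ (B : ℝ) ^ 2 := by
      have h4 : n.natAbs ≤ B * B := by
        rw [hn, Int.natAbs_mul]
        have e0 := ha0 0
        have e1 := hb0 0
        have e2 := hb0 1
        refine Nat.mul_le_mul ?_ ?_ <;> omega
      calc (n.natAbs : ℝ) ≤ ((B * B : ℕ) : ℝ) := by exact_mod_cast h4
        _ = (B : ℝ) ^ 2 := by push_cast; ring
    have h5 : (n.natAbs : ℝ) ^ (ε / 2) ≤ (B : ℝ) ^ ε := by
      calc (n.natAbs : ℝ) ^ (ε / 2) ≤ ((B : ℝ) ^ 2) ^ (ε / 2) :=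
            Real.rpow_le_rpow (Nat.cast_nonneg _) h3 (by positivity)
        _ = (B : ℝ) ^ ε := by
            rw [← Real.rpow_natCast, ← Real.rpow_mul hB0.le]
            congr 1
            push_cast
            ring
    push_cast
    rw [hR]
    have h6 : C * (n.natAbs : ℝ) ^ (ε / 2) ≤ C * (B : ℝ) ^ ε :=
      mul_le_mul_of_nonneg_left h5 hC.le
    linarith
  have h1 := Finset.card_le_mul_card_image_of_maps_to hmaps ⌊R⌋₊ hfib
  have h2 : t.card = (B + 1) ^ 3 := by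
    rw [ht, Finset.card_product, Finset.card_product, Finset.card_range]
    ring
  have h3 : ((qE B).card : ℝ) ≤ R * ((B : ℝ) + 1) ^ 3 := by
    calc ((qE B).card : ℝ) ≤ ((⌊R⌋₊ * t.card : ℕ) : ℝ) := by exact_mod_cast h1
      _ = (⌊R⌋₊ : ℝ) * ((B : ℝ) + 1) ^ 3 := by rw [h2]; push_cast; ring
      _ ≤ R * ((B : ℝ) + 1) ^ 3 :=
          mul_le_mul_of_nonneg_right (Nat.floor_le hR0) (by positivity)
  have h4 : ((B : ℝ) + 1) ^ 3 ≤ (2 * (B : ℝ)) ^ 3 := by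
    have : (1 : ℝ) ≤ B := by exact_mod_cast hB
    gcongr
    linarith
  calc ((qE B).card : ℝ) ≤ R * ((B : ℝ) + 1) ^ 3 := h3
    _ ≤ R * (2 * (B : ℝ)) ^ 3 := mul_le_mul_of_nonneg_left h4 hR0
    _ = 16 * C * (B : ℝ) ^ (3 + ε) := by
        rw [hR, Real.rpow_add hB0, Real.rpow_ofNat]
        ring

end Pool.Agent.H62.N64F
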