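import Pool.Agent.H62.N64F.Cover
import Pool.Agent.H62.N64F.Quint

set_option autoImplicit false

/-! MODULE F/Fibre (about 180 lines). Block F (s = 5), MP_4f0605_nt: the good solutions over the 5-tuples.

`pr p = (x 0, x 1, x 2; y 0, y 1)`.
PROOF of `fibre_big`. Let `q = pr p` with `A = ∏_{i<3} (y 0 - x i)`, `A' = ∏_{i<3} (y 1 - x i)`, `A ≠ A'` (both are not zero). From
`A (y 0 - x 3) (y 0 - x 4) = c = A' (y 1 - x 3) (y 1 - x 4)` (`exists_const`, `Fin.prod_univ_succ`) one gets, with `a = A - A'`,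
`b = A y 0 - A' y 1`, the identity `(a x 3 - b) (a x 4 - b) = A A' (y 0 - y 1)^2 =: n ≠ 0`, `|n| ≤ B^8`. By `card_hyperbola` there are at most
`2 d(n) ≤ 2 C B^(8 ε')` pairs `(x 3, x 4)`, and for a given `x` and `y 0` at most `5! = 120` tuples `y` (`perm_of_eq`: all of them are
permutations of one of them).
PROOF of `fibre_diag`. If `A = A'`: `(y 0 - x 3) (y 0 - x 4) = (y 1 - x 3) (y 1 - x 4)`, so (`y 0 ≠ y 1`) `x 3 + x 4 = y 0 + y 1`: `x 3`
determines `x 4`: at most `B + 1` pairs, and again at most 120 tuples `y`.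
PROOF of `card_goodF_le`. `pr` maps `goodF B W` to `qF B W` (each fibre over the complement of `qE B` has at most `C B^ε` elements, each fibre
over `qE B` at most `120 (B+1)`): `Finset.card_eq_sum_card_fiberwise` (or `Finset.card_le_mul_card_image`). -/

open scoped BigOperators

namespace Pool.Agent.H62.N64F

open Pool.Agent.H19.N64

/-- the first three `x` and the first two `y` -/
def pr (p : (Fin 5 → ℕ) × (Fin 5 → ℕ)) : (Fin 3 → ℕ) × (Fin 2 → ℕ) :=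
  (fun i => p.1 (Fin.castLE (by norm_num) i), fun j => p.2 (Fin.castLE (by norm_num) j))

theorem card_perm_fibre (B : ℕ) (x : Fin 5 → ℕ) (y0 : ℕ)
    (S : Finset ((Fin 5 → ℕ) × (Fin 5 → ℕ))) (hS : S ⊆ adF 5 B)
    (h : ∀ p ∈ S, p.1 = x ∧ p.2 0 = y0) : S.card ≤ 120 := by
  classical
  rcases S.eq_empty_or_nonempty with h0 | ⟨p0, hp0⟩
  · rw [h0, Finset.card_empty]
    norm_num
  have h1 : S ⊆ (Finset.univ : Finset (Equiv.Perm (Fin 5))).image
      fun τ => (x, fun i => p0.2 (τ i)) := by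
    intro q hq
    obtain ⟨τ, hτ⟩ := perm_of_eq (hS hp0) (hS hq) ((h p0 hp0).1.trans (h q hq).1.symm)
      ((h p0 hp0).2.trans (h q hq).2.symm)
    refine Finset.mem_image.2 ⟨τ, Finset.mem_univ _, ?_⟩
    exact Prod.ext (h q hq).1.symm (funext fun i => (hτ i).symm)
  have h2 := (Finset.card_le_card h1).trans Finset.card_image_le
  rw [Finset.card_univ, Fintype.card_perm, Fintype.card_fin] at h2
  exact h2.trans (by decide)

private theorem fib_cast (p : (Fin 5 → ℕ) × (Fin 5 → ℕ)) :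
    (pr p).1 0 = p.1 0 ∧ (pr p).1 1 = p.1 1 ∧ (pr p).1 2 = p.1 2 ∧ (pr p).2 0 = p.2 0 ∧
      (pr p).2 1 = p.2 1 := ⟨rfl, rfl, rfl, rfl, rfl⟩

/-- the basic identity for the last two coordinates -/
private theorem fib_id {B : ℕ} {p : (Fin 5 → ℕ) × (Fin 5 → ℕ)} (hp : p ∈ adF 5 B)
    {q : (Fin 3 → ℕ) × (Fin 2 → ℕ)} (hq : pr p = q) :
    (∏ i, ((q.2 0 : ℤ) - q.1 i)) * ((q.2 0 : ℤ) - p.1 3) * ((q.2 0 : ℤ) - p.1 4) =
      (∏ i, ((q.2 1 : ℤ) - q.1 i)) * ((q.2 1 : ℤ) - p.1 3) * ((q.2 1 : ℤ) - p.1 4) := by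
  obtain ⟨c, -, hc, -⟩ := exists_const hp
  have h0 := hc 0
  have h1 := hc 1
  rw [← hq]
  obtain ⟨e0, e1, e2, f0, f1⟩ := fib_cast p
  rw [Fin.prod_univ_five] at h0 h1
  rw [Fin.prod_univ_three, Fin.prod_univ_three, e0, e1, e2, f0, f1, h0, h1]

private theorem fib_box {B : ℕ} {p : (Fin 5 → ℕ) × (Fin 5 → ℕ)} (hp : p ∈ adF 5 B) :
    (∀ i, (pr p).1 i ≤ B) ∧ (∀ j, (pr p).2 j ≤ B) ∧ ∀ i j, (pr p).1 i ≠ (pr p).2 j := by
  obtain ⟨h1, h2⟩ := mem_adF.1 hp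
  obtain ⟨⟨h3, h4⟩, -⟩ := mem_solF.1 h1
  exact ⟨fun i => h3 _, fun j => h4 _, fun i j => h2 _ _⟩

private theorem fib_perm {B W : ℕ} {q : (Fin 3 → ℕ) × (Fin 2 → ℕ)} (u v : ℕ)
    (S : Finset ((Fin 5 → ℕ) × (Fin 5 → ℕ))) (hS : S ⊆ goodF B W)
    (h : ∀ p ∈ S, pr p = q ∧ p.1 3 = u ∧ p.1 4 = v) : S.card ≤ 120 := by
  apply card_perm_fibre B ![q.1 0, q.1 1, q.1 2, u, v] (q.2 0) S
    (fun p hp => (mem_goodF.1 (hS hp)).1)
  intro p hp
  obtain ⟨h1, h2, h3⟩ := h p hp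
  obtain ⟨e0, e1, e2, f0, f1⟩ := fib_cast p
  rw [h1] at e0 e1 e2 f0 f1
  refine ⟨?_, f0.symm⟩
  funext i
  fin_cases i
  · exact e0.symm
  · exact e1.symm
  · exact e2.symm
  · exact h2
  · exact h3

private theorem fib_abs {B : ℕ} {a b : ℕ} (ha : a ≤ B) (hb : b ≤ B) :
    |(a : ℤ) - b| ≤ B := by
  rw [abs_le]
  constructor <;> omega

theorem fibre_big (ε : ℝ) (hε : 0 < ε) :
    ∃ C : ℝ, 0 < C ∧ ∀ B W : ℕ, 1 ≤ B → ∀ q ∉ qE B,
      (((goodF B W).filter fun p => pr p = q).card : ℝ) ≤ C * (B : ℝ) ^ ε := by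
  classical
  obtain ⟨C0, hC0, hd⟩ := Pool.Agent.H56.DivBound.divisors_card_le (ε / 8) (by positivity)
  refine ⟨240 * C0, by positivity, fun B W hB q hq => ?_⟩
  have hB0 : (0 : ℝ) < B := by exact_mod_cast hB
  set S := (goodF B W).filter fun p => pr p = q with hSdef
  rcases S.eq_empty_or_nonempty with h0 | ⟨p0, hp0⟩
  · rw [h0, Finset.card_empty, Nat.cast_zero]
    positivity
  have hgood : ∀ p ∈ S, p ∈ goodF B W ∧ pr p = q := fun p hp => Finset.mem_filter.1 hp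
  have had : ∀ p ∈ S, p ∈ adF 5 B := fun p hp => (mem_goodF.1 (hgood p hp).1).1
  obtain ⟨hb1, hb2, hb3⟩ := fib_box (had p0 hp0)
  rw [(hgood p0 hp0).2] at hb1 hb2 hb3
  have hy : q.2 0 ≠ q.2 1 := by
    have h1 := (mem_goodF.1 (hgood p0 hp0).1).2.1
    obtain ⟨-, -, -, f0, f1⟩ := fib_cast p0
    rw [(hgood p0 hp0).2] at f0 f1
    rw [f0, f1]
    exact h1
  obtain ⟨A, hA⟩ : ∃ A : ℤ, A = ∏ i, ((q.2 0 : ℤ) - q.1 i) := ⟨_, rfl⟩
  obtain ⟨A', hA'⟩ : ∃ A' : ℤ, A' = ∏ i, ((q.2 1 : ℤ) - q.1 i) := ⟨_, rfl⟩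
  have hAA : A ≠ A' := by
    intro h1
    apply hq
    unfold qE qBox
    rw [Finset.mem_filter, Finset.mem_product, Fintype.mem_piFinset, Fintype.mem_piFinset]
    refine ⟨⟨fun i => Finset.mem_range.2 (Nat.lt_succ_of_le (hb1 i)),
      fun i => Finset.mem_range.2 (Nat.lt_succ_of_le (hb2 i))⟩, hb3, hy, ?_⟩
    rw [← hA, ← hA', h1]
  have hA0 : A ≠ 0 := by
    rw [hA, Finset.prod_ne_zero_iff]
    intro i _ h1
    exact hb3 i 0 (by omega)
  have hA0' : A' ≠ 0 := by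
    rw [hA', Finset.prod_ne_zero_iff]
    intro i _ h1
    exact hb3 i 1 (by omega)
  have hyz : ((q.2 0 : ℤ) - q.2 1) ≠ 0 := by omega
  obtain ⟨n, hn⟩ : ∃ n : ℤ, n = A * A' * ((q.2 0 : ℤ) - q.2 1) ^ 2 := ⟨_, rfl⟩
  have hn0 : n ≠ 0 := by
    rw [hn]
    exact mul_ne_zero (mul_ne_zero hA0 hA0') (pow_ne_zero _ hyz)
  have hnB : n.natAbs ≤ B ^ 8 := by
    have h1 : |A| ≤ (B : ℤ) ^ 3 := by
      rw [hA, Finset.abs_prod]
      calc ∏ i, |(q.2 0 : ℤ) - q.1 i| ≤ ∏ _i : Fin 3, (B : ℤ) :=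
            Finset.prod_le_prod (fun i _ => abs_nonneg _) fun i _ => fib_abs (hb2 0) (hb1 i)
        _ = (B : ℤ) ^ 3 := by rw [Finset.prod_const, Finset.card_univ, Fintype.card_fin]
    have h2 : |A'| ≤ (B : ℤ) ^ 3 := by
      rw [hA', Finset.abs_prod]
      calc ∏ i, |(q.2 1 : ℤ) - q.1 i| ≤ ∏ _i : Fin 3, (B : ℤ) :=
            Finset.prod_le_prod (fun i _ => abs_nonneg _) fun i _ => fib_abs (hb2 1) (hb1 i)
        _ = (B : ℤ) ^ 3 := by rw [Finset.prod_const, Finset.card_univ, Fintype.card_fin]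
    have h3 : |(q.2 0 : ℤ) - q.2 1| ^ 2 ≤ (B : ℤ) ^ 2 :=
      pow_le_pow_left₀ (abs_nonneg _) (fib_abs (hb2 0) (hb2 1)) 2
    have h4 : |n| ≤ (B : ℤ) ^ 8 := by
      rw [hn, abs_mul, abs_mul, abs_pow]
      calc |A| * |A'| * |(q.2 0 : ℤ) - q.2 1| ^ 2 ≤ (B : ℤ) ^ 3 * (B : ℤ) ^ 3 * (B : ℤ) ^ 2 := by
            apply mul_le_mul _ h3 (by positivity) (by positivity)
            exact mul_le_mul h1 h2 (abs_nonneg _) (by positivity)
        _ = (B : ℤ) ^ 8 := by ring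
    have h5 : ((n.natAbs : ℕ) : ℤ) ≤ ((B ^ 8 : ℕ) : ℤ) := by
      rw [Int.natCast_natAbs]
      push_cast
      exact h4
    exact_mod_cast h5
  -- the pairs of the last two coordinates
  have hT : (S.image fun p => ((p.1 3 : ℤ), (p.1 4 : ℤ))).card ≤ 2 * n.natAbs.divisors.card := by
    apply card_hyperbola _ (A - A') (A * q.2 0 - A' * q.2 1) (A * q.2 0 - A' * q.2 1) n
      (sub_ne_zero.2 hAA) hn0
    intro z hz
    obtain ⟨p, hp, rfl⟩ := Finset.mem_image.1 hz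
    have h1 := fib_id (had p hp) (hgood p hp).2
    rw [← hA, ← hA'] at h1
    rw [hn]
    change ((A - A') * (p.1 3 : ℤ) - (A * q.2 0 - A' * q.2 1)) *
      ((A - A') * (p.1 4 : ℤ) - (A * q.2 0 - A' * q.2 1)) = _
    linear_combination (A - A') * h1
  have hS1 : S.card ≤ 120 * (S.image fun p => ((p.1 3 : ℤ), (p.1 4 : ℤ))).card := by
    apply Finset.card_le_mul_card_image
    intro z hz
    obtain ⟨p, hp, rfl⟩ := Finset.mem_image.1 hz
    apply fib_perm (q := q) (p.1 3) (p.1 4) _ ((Finset.filter_subset _ _).trans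
      (Finset.filter_subset _ _))
    intro p' hp'
    obtain ⟨h1, h2⟩ := Finset.mem_filter.1 hp'
    have h3 : (p'.1 3 : ℤ) = p.1 3 := congrArg Prod.fst h2
    have h4 : (p'.1 4 : ℤ) = p.1 4 := congrArg Prod.snd h2
    refine ⟨(hgood p' h1).2, ?_, ?_⟩
    · exact_mod_cast h3
    · exact_mod_cast h4
  have hcard : S.card ≤ 240 * n.natAbs.divisors.card := by omega
  have hdn := hd n.natAbs (Int.natAbs_ne_zero.2 hn0)
  have hpow : ((n.natAbs : ℕ) : ℝ) ^ (ε / 8) ≤ (B : ℝ) ^ ε := by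
    have h1 : ((n.natAbs : ℕ) : ℝ) ≤ (B : ℝ) ^ (8 : ℕ) := by exact_mod_cast hnB
    calc ((n.natAbs : ℕ) : ℝ) ^ (ε / 8) ≤ ((B : ℝ) ^ (8 : ℕ)) ^ (ε / 8) :=
          Real.rpow_le_rpow (Nat.cast_nonneg _) h1 (by positivity)
      _ = (B : ℝ) ^ ε := by
          rw [← Real.rpow_natCast (B : ℝ) 8, ← Real.rpow_mul hB0.le]
          congr 1
          push_cast
          ring
  calc (S.card : ℝ) ≤ ((240 * n.natAbs.divisors.card : ℕ) : ℝ) := by exact_mod_cast hcard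
    _ = 240 * (n.natAbs.divisors.card : ℝ) := by push_cast; ring
    _ ≤ 240 * (C0 * ((n.natAbs : ℕ) : ℝ) ^ (ε / 8)) :=
        mul_le_mul_of_nonneg_left hdn (by norm_num)
    _ ≤ 240 * (C0 * (B : ℝ) ^ ε) :=
        mul_le_mul_of_nonneg_left (mul_le_mul_of_nonneg_left hpow hC0.le) (by norm_num)
    _ = 240 * C0 * (B : ℝ) ^ ε := by ring

theorem fibre_diag (B W : ℕ) (q : (Fin 3 → ℕ) × (Fin 2 → ℕ)) (hq : q ∈ qE B) :
    ((goodF B W).filter fun p => pr p = q).card ≤ 120 * (B + 1) := by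
  classical
  unfold qE at hq
  obtain ⟨-, hne, hy, hprod⟩ := Finset.mem_filter.1 hq
  set S := (goodF B W).filter fun p => pr p = q with hSdef
  have hgood : ∀ p ∈ S, p ∈ goodF B W ∧ pr p = q := fun p hp => Finset.mem_filter.1 hp
  have had : ∀ p ∈ S, p ∈ adF 5 B := fun p hp => (mem_goodF.1 (hgood p hp).1).1
  have hA0 : (∏ i, ((q.2 0 : ℤ) - q.1 i)) ≠ 0 := by
    rw [Finset.prod_ne_zero_iff]
    intro i _ h1
    exact hne i 0 (by omega)
  have hsum : ∀ p ∈ S, p.1 3 + p.1 4 = q.2 0 + q.2 1 := by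
    intro p hp
    have h1 := fib_id (had p hp) (hgood p hp).2
    rw [← hprod, mul_assoc, mul_assoc] at h1
    have h2 := mul_left_cancel₀ hA0 h1
    have h3 : ((q.2 0 : ℤ) - q.2 1) * ((p.1 3 : ℤ) + p.1 4) =
        ((q.2 0 : ℤ) - q.2 1) * ((q.2 0 : ℤ) + q.2 1) := by
      linear_combination -h2
    have h4 := mul_left_cancel₀ (show ((q.2 0 : ℤ) - q.2 1) ≠ 0 by omega) h3
    omega
  have hS1 : S.card ≤ 120 * (S.image fun p => p.1 3).card := by
    apply Finset.card_le_mul_card_image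
    intro z hz
    obtain ⟨p, hp, rfl⟩ := Finset.mem_image.1 hz
    apply fib_perm (q := q) (p.1 3) (p.1 4) _ ((Finset.filter_subset _ _).trans
      (Finset.filter_subset _ _))
    intro p' hp'
    obtain ⟨h1, h2⟩ := Finset.mem_filter.1 hp'
    have h3 := hsum p hp
    have h4 := hsum p' h1
    exact ⟨(hgood p' h1).2, h2, by omega⟩
  have hT : (S.image fun p => p.1 3).card ≤ B + 1 := by
    rw [← Finset.card_range (B + 1)]
    apply Finset.card_le_card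
    intro z hz
    obtain ⟨p, hp, rfl⟩ := Finset.mem_image.1 hz
    have h1 := (mem_solF.1 (mem_adF.1 (had p hp)).1).1.1 3
    exact Finset.mem_range.2 (Nat.lt_succ_of_le h1)
  exact hS1.trans (Nat.mul_le_mul_left _ hT)

theorem card_goodF_le (ε : ℝ) (hε : 0 < ε) :
    ∃ C : ℝ, 0 < C ∧ ∀ B W : ℕ, 1 ≤ B →
      ((goodF B W).card : ℝ) ≤ C * (B : ℝ) ^ ε * (qF B W).card
        + 120 * ((B : ℝ) + 1) * (qE B).card := by
  classical
  obtain ⟨C, hC, h⟩ := fibre_big ε hε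
  refine ⟨C, hC, fun B W hB => ?_⟩
  have hB0 : (0 : ℝ) < B := by exact_mod_cast hB
  have hmaps : ∀ p ∈ goodF B W, pr p ∈ qF B W := by
    intro p hp
    obtain ⟨h1, h2, h3⟩ := mem_goodF.1 hp
    obtain ⟨hb1, hb2, hb3⟩ := fib_box h1
    unfold qF qBox
    rw [Finset.mem_filter, Finset.mem_product, Fintype.mem_piFinset, Fintype.mem_piFinset]
    exact ⟨⟨fun i => Finset.mem_range.2 (Nat.lt_succ_of_le (hb1 i)),
      fun i => Finset.mem_range.2 (Nat.lt_succ_of_le (hb2 i))⟩, hb3, h2, h3⟩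
  rw [Finset.card_eq_sum_card_fiberwise hmaps, Nat.cast_sum]
  have hterm : ∀ q ∈ qF B W, ((((goodF B W).filter fun p => pr p = q).card : ℕ) : ℝ) ≤
      C * (B : ℝ) ^ ε + (if q ∈ qE B then 120 * ((B : ℝ) + 1) else 0) := by
    intro q _
    by_cases hq : q ∈ qE B
    · rw [if_pos hq]
      have h1 := fibre_diag B W q hq
      have h2 : ((((goodF B W).filter fun p => pr p = q).card : ℕ) : ℝ) ≤
          ((120 * (B + 1) : ℕ) : ℝ) := by exact_mod_cast h1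
      push_cast at h2
      have h3 : 0 ≤ C * (B : ℝ) ^ ε := by positivity
      linarith
    · rw [if_neg hq, add_zero]
      exact h B W hB q hq
  refine (Finset.sum_le_sum hterm).trans ?_
  rw [Finset.sum_add_distrib, Finset.sum_const, nsmul_eq_mul, ← Finset.sum_filter,
    Finset.sum_const, nsmul_eq_mul]
  have h4 : (((qF B W).filter fun q => q ∈ qE B).card : ℝ) ≤ ((qE B).card : ℝ) := by
    have h5 : ((qF B W).filter fun q => q ∈ qE B) ⊆ qE B := fun q hq => (Finset.mem_filter.1 hq).2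
    exact_mod_cast Finset.card_le_card h5
  have h6 : (((qF B W).filter fun q => q ∈ qE B).card : ℝ) * (120 * ((B : ℝ) + 1)) ≤
      ((qE B).card : ℝ) * (120 * ((B : ℝ) + 1)) := mul_le_mul_of_nonneg_right h4 (by positivity)
  linarith

end Pool.Agent.H62.N64F
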