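import Mathlib

set_option autoImplicit false

/-! MODULE F/Gcd (about 100 lines). Block F (s = 5), MP_4f0605_nt: pairs of integers with a large gcd.

PROOF. A pair `(u, v)` with `u, v ≠ 0`, `|u|, |v| ≤ B` and `g = gcd(u, v) ≥ W` is `(g u', g v')` with `W ≤ g ≤ B`, `1 ≤ |u'|, |v'| ≤ B/g`:
so the number of pairs is at most `∑_{g=W..B} (2 (B/g))^2 ≤ 4 B^2 ∑_{g ≥ W} 1/g^2 ≤ 8 B^2 / W` (`1/g^2 ≤ 2/(g (g+1)) = 2 (1/g - 1/(g+1))`,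
telescoping; or Mathlib `sum_Ioc_inv_sq_le_sub`, `sum_Ioo_inv_sq_le`). -/

namespace Pool.Agent.H62.N64F

private theorem gcd_T (B g : ℕ) (hg : 1 ≤ g) :
    ((Finset.Icc (-(B : ℤ)) B).filter (fun x : ℤ => x ≠ 0 ∧ (g : ℤ) ∣ x)).card ≤ 2 * (B / g) := by
  have h1 : ((Finset.Icc (-(B : ℤ)) B).filter (fun x : ℤ => x ≠ 0 ∧ (g : ℤ) ∣ x)) ⊆
      ((Finset.Icc (-((B / g : ℕ) : ℤ)) ((B / g : ℕ) : ℤ)).erase 0).image
        (fun k => (g : ℤ) * k) := by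
    intro x hx
    rw [Finset.mem_filter, Finset.mem_Icc] at hx
    obtain ⟨⟨h1, h2⟩, h3, k, rfl⟩ := hx
    rw [Finset.mem_image]
    refine ⟨k, ?_, rfl⟩
    rw [Finset.mem_erase, Finset.mem_Icc]
    have hg' : (0 : ℤ) < g := by exact_mod_cast hg
    refine ⟨fun h => h3 (by rw [h, mul_zero]), ?_, ?_⟩
    · have h4 : -k ≤ (B : ℤ) / g := Int.le_ediv_of_mul_le hg' (by linarith)
      push_cast
      linarith
    · have h4 : k ≤ (B : ℤ) / g := Int.le_ediv_of_mul_le hg' (by linarith)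
      push_cast
      linarith
  refine (Finset.card_le_card h1).trans (Finset.card_image_le.trans ?_)
  have h2 : (0 : ℤ) ∈ Finset.Icc (-((B / g : ℕ) : ℤ)) ((B / g : ℕ) : ℤ) := by
    rw [Finset.mem_Icc]
    have h3 : (0 : ℤ) ≤ ((B / g : ℕ) : ℤ) := Int.natCast_nonneg _
    constructor <;> linarith
  rw [Finset.card_erase_of_mem h2, Int.card_Icc]
  omega

private theorem gcd_cover (B W : ℕ) :
    ((Finset.Icc (-(B : ℤ)) B ×ˢ Finset.Icc (-(B : ℤ)) B).filter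
      (fun p : ℤ × ℤ => p.1 ≠ 0 ∧ p.2 ≠ 0 ∧ W ≤ Int.gcd p.1 p.2)) ⊆
    (Finset.Icc W B).biUnion (fun g =>
      ((Finset.Icc (-(B : ℤ)) B).filter (fun x : ℤ => x ≠ 0 ∧ (g : ℤ) ∣ x)) ×ˢ
      ((Finset.Icc (-(B : ℤ)) B).filter (fun x : ℤ => x ≠ 0 ∧ (g : ℤ) ∣ x))) := by
  rintro ⟨u, v⟩ hx
  rw [Finset.mem_filter, Finset.mem_product] at hx
  obtain ⟨⟨hu, hv⟩, hu0, hv0, hW⟩ := hx
  change u ∈ Finset.Icc (-(B : ℤ)) B at hu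
  change v ∈ Finset.Icc (-(B : ℤ)) B at hv
  change u ≠ 0 at hu0
  change v ≠ 0 at hv0
  change W ≤ Int.gcd u v at hW
  rw [Finset.mem_biUnion]
  refine ⟨Int.gcd u v, ?_, ?_⟩
  · rw [Finset.mem_Icc]
    refine ⟨hW, ?_⟩
    have h1 : Int.gcd u v ≤ u.natAbs :=
      Nat.le_of_dvd (Int.natAbs_pos.2 hu0) (Int.gcd_dvd_natAbs_left u v)
    rw [Finset.mem_Icc] at hu
    omega
  · rw [Finset.mem_product, Finset.mem_filter, Finset.mem_filter]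
    exact ⟨⟨hu, hu0, Int.gcd_dvd_left _ _⟩, ⟨hv, hv0, Int.gcd_dvd_right _ _⟩⟩

private theorem gcd_sum (B W : ℕ) (hW : 1 ≤ W) :
    ∑ g ∈ Finset.Icc W B, ((g : ℝ) ^ 2)⁻¹ ≤ 2 / W := by
  have hW0 : (0 : ℝ) < W := by exact_mod_cast hW
  rcases lt_or_ge B W with h | h
  · rw [Finset.Icc_eq_empty (by omega), Finset.sum_empty]
    positivity
  · have h1 : Finset.Icc W B = insert W (Finset.Ioc W B) :=
      (Finset.Ioc_insert_left h).symm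
    rw [h1, Finset.sum_insert (by simp)]
    have h2 : ∑ g ∈ Finset.Ioc W B, ((g : ℝ) ^ 2)⁻¹ ≤ (W : ℝ)⁻¹ - (B : ℝ)⁻¹ :=
      sum_Ioc_inv_sq_le_sub (by omega) h
    have h3 : (0 : ℝ) ≤ (B : ℝ)⁻¹ := by positivity
    have h4 : ((W : ℝ) ^ 2)⁻¹ ≤ (W : ℝ)⁻¹ := by
      rw [pow_two, mul_inv]
      have h5 : (W : ℝ)⁻¹ ≤ 1 := inv_le_one_of_one_le₀ (by exact_mod_cast hW)
      have h6 : (0 : ℝ) ≤ (W : ℝ)⁻¹ := by positivity
      nlinarith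
    have h5 : (2 : ℝ) / W = (W : ℝ)⁻¹ + (W : ℝ)⁻¹ := by
      rw [div_eq_mul_inv]
      ring
    rw [h5]
    linarith

theorem gcd_count (B W : ℕ) (hW : 1 ≤ W) :
    ((((Finset.Icc (-(B : ℤ)) B ×ˢ Finset.Icc (-(B : ℤ)) B).filter
      (fun p : ℤ × ℤ => p.1 ≠ 0 ∧ p.2 ≠ 0 ∧ W ≤ Int.gcd p.1 p.2)).card : ℕ) : ℝ)
      ≤ 8 * (B : ℝ) ^ 2 / W := by
  have h1 := (Finset.card_le_card (gcd_cover B W)).trans Finset.card_biUnion_le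
  have h2 : ((((Finset.Icc (-(B : ℤ)) B ×ˢ Finset.Icc (-(B : ℤ)) B).filter
      (fun p : ℤ × ℤ => p.1 ≠ 0 ∧ p.2 ≠ 0 ∧ W ≤ Int.gcd p.1 p.2)).card : ℕ) : ℝ)
      ≤ ∑ g ∈ Finset.Icc W B, 4 * (B : ℝ) ^ 2 * ((g : ℝ) ^ 2)⁻¹ := by
    refine (Nat.cast_le.2 h1).trans ?_
    rw [Nat.cast_sum]
    refine Finset.sum_le_sum (fun g hg => ?_)
    rw [Finset.mem_Icc] at hg
    have hg1 : 1 ≤ g := hW.trans hg.1
    have hg0 : (0 : ℝ) < g := by exact_mod_cast hg1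
    rw [Finset.card_product, Nat.cast_mul]
    have h3 : ((((Finset.Icc (-(B : ℤ)) B).filter
        (fun x : ℤ => x ≠ 0 ∧ (g : ℤ) ∣ x)).card : ℕ) : ℝ) ≤ 2 * ((B : ℝ) / g) := by
      refine (Nat.cast_le.2 (gcd_T B g hg1)).trans ?_
      push_cast
      have h4 : ((B / g : ℕ) : ℝ) ≤ (B : ℝ) / g := Nat.cast_div_le
      linarith
    have h5 : (0 : ℝ) ≤ ((((Finset.Icc (-(B : ℤ)) B).filter
        (fun x : ℤ => x ≠ 0 ∧ (g : ℤ) ∣ x)).card : ℕ) : ℝ) := Nat.cast_nonneg _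
    calc _ ≤ (2 * ((B : ℝ) / g)) * (2 * ((B : ℝ) / g)) :=
          mul_le_mul h3 h3 h5 (by positivity)
      _ = 4 * (B : ℝ) ^ 2 * ((g : ℝ) ^ 2)⁻¹ := by
          field_simp
          ring
  refine h2.trans ?_
  rw [← Finset.mul_sum]
  have h6 := gcd_sum B W hW
  calc 4 * (B : ℝ) ^ 2 * ∑ g ∈ Finset.Icc W B, ((g : ℝ) ^ 2)⁻¹
      ≤ 4 * (B : ℝ) ^ 2 * (2 / W) := mul_le_mul_of_nonneg_left h6 (by positivity)
    _ = 8 * (B : ℝ) ^ 2 / W := by ring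

end Pool.Agent.H62.N64F
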